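import Pool.Agent.Helper14.TF.Num
import Pool.Agent.Helper81.AT.Prog

/-!
Project AT (MP_b8862a_ag): Hodge numbers in an arithmetic progression.
-/

set_option linter.unusedSectionVars false

open Matrix Module GH

attribute [local instance 100] LieRing.ofAssociativeRing

namespace MH

/-- The numbers `h p` are one on an arithmetic progression of `r` integers and zero elsewhere: the Hodge numbers of a
symmetric power of a Hodge structure with the Hodge numbers `1`, `1`. -/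
def Arith (r : ℕ) (h : ℤ → ℕ) : Prop :=
  ∃ p₀ d : ℤ, ∀ p, h p ≤ 1 ∧ (0 < h p ↔ ∃ i : ℕ, i < r ∧ p = p₀ + i * d)

theorem not_arith_of_two {r : ℕ} {h : ℤ → ℕ} (h2 : ∃ p, 2 ≤ h p) : ¬ Arith r h := by
  rintro ⟨p₀, d, hp⟩
  obtain ⟨p, hp2⟩ := h2
  have := (hp p).1
  omega

variable {n : Type*} [Fintype n] [DecidableEq n]
variable {h : Matrix n n ℂ} {E : ℝ → Matrix n n ℂ} {Λ : Finset ℝ}

/-- the eigenvalues -/
theorem SD.eig_mem14 (hE : SD h E Λ) {c : ℂ} (hc : 0 < finrank ℂ (Module.End.eigenspace (Matrix.toLin' h) c)) :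
    ∃ μ : ℝ, c = μ ∧ E μ ≠ 0 := by
  obtain ⟨v, hv, hv0⟩ := Submodule.exists_mem_ne_zero_of_ne_bot
    (p := Module.End.eigenspace (Matrix.toLin' h) c) (by
      intro h0
      rw [h0, finrank_bot] at hc
      exact lt_irrefl _ hc)
  rw [Module.End.mem_eigenspace_iff, Matrix.toLin'_apply] at hv
  by_contra hcon
  push Not at hcon
  apply hv0
  have h3 : v = ∑ ν ∈ Λ, E ν *ᵥ v := by
    rw [← Matrix.sum_mulVec, hE.sum, Matrix.one_mulVec]
  rw [h3]
  refine Finset.sum_eq_zero fun ν _ => ?_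
  have e1 : E ν *ᵥ (h *ᵥ v) = (ν : ℂ) • (E ν *ᵥ v) := by
    rw [Matrix.mulVec_mulVec, hE.mul_l, Matrix.smul_mulVec]
  rw [hv, Matrix.mulVec_smul] at e1
  have e2 : (c - ν) • (E ν *ᵥ v) = 0 := by rw [sub_smul, e1, sub_self]
  rcases smul_eq_zero.1 e2 with e3 | e3
  · rw [hcon ν (sub_eq_zero.1 e3), Matrix.zero_mulVec]
  · exact e3

/-- simple eigenvalues in an arithmetic progression: the multiplicities of the numbers `a p + b` -/
theorem SD.arith14 (hE : SD h E Λ) {a b : ℝ} (ha : a ≠ 0) (hint : ∀ μ, E μ ≠ 0 → ∃ p : ℤ, μ = a * p + b)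
    (hn : 2 ≤ Fintype.card n) (hP : AT.Prog (Matrix.toLin' h)) :
    Arith (Fintype.card n) (fun p => (E (a * p + b)).rank) := by
  obtain ⟨h1, α, δ, h2⟩ := hP
  rw [Module.finrank_fintype_fun_eq_card] at h2
  obtain ⟨μ0, e0, hμ0⟩ := hE.eig_mem14 ((h2 α).2 ⟨0, by omega, by simp⟩)
  obtain ⟨μ1, e1, hμ1⟩ := hE.eig_mem14 ((h2 (α + δ)).2 ⟨1, by omega, by simp⟩)
  obtain ⟨p0, f0⟩ := hint μ0 hμ0
  obtain ⟨p1, f1⟩ := hint μ1 hμ1
  have hα : α = ((a * p0 + b : ℝ) : ℂ) := by rw [e0, f0]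
  have hδ : δ = ((a * (p1 - p0) : ℝ) : ℂ) := by
    have e2 : δ = (μ1 : ℂ) - μ0 := by
      rw [← e1, ← e0]
      ring
    rw [e2, f0, f1]
    push_cast
    ring
  refine ⟨p0, p1 - p0, fun p => ⟨?_, ?_⟩⟩
  · have h3 := h1 ((a * p + b : ℝ) : ℂ)
    rwa [hE.finrank_eig98] at h3
  · have h3 := h2 ((a * p + b : ℝ) : ℂ)
    rw [hE.finrank_eig98] at h3
    rw [h3]
    refine exists_congr fun i => and_congr_right fun _ => ?_
    rw [hα, hδ]
    constructor
    · intro h4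
      have h5 : a * p + b = (a * p0 + b) + i * (a * (p1 - p0)) := by exact_mod_cast h4
      have h6 : a * (p - (p0 + i * (p1 - p0))) = 0 := by linear_combination h5
      have h7 : (p : ℝ) - (p0 + i * (p1 - p0)) = 0 := (mul_eq_zero.1 h6).resolve_left ha
      have h8 : (p : ℝ) = ((p0 + i * (p1 - p0) : ℤ) : ℝ) := by
        push_cast
        linarith
      exact_mod_cast h8
    · intro h4
      rw [h4]
      push_cast
      ring

end MH
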