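import Pool.Agent.Helper14.PW.CoreE
import Pool.Agent.Helper14.AT.Arith

/-!
Project AT (MP_b8862a_ag), self-dual blocks: Hodge numbers that are not in an arithmetic progression.
-/

set_option linter.unusedSectionVars false

open Matrix Module GH

attribute [local instance 100] LieRing.ofAssociativeRing

namespace MH

/-- For every dimension outside `EE`: a simple irreducible Lie algebra of skew endomorphisms contains all skew
endomorphisms, or the eigenvalues of its non-zero diagonalisable elements are simple and in an arithmetic progression. -/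
def CoreP (EE : Set ℕ) : Prop :=
  ∀ (n : Type) [Fintype n], Fintype.card n ∉ EE → ∀ ω : LinearMap.BilinForm ℂ (n → ℂ), ω.IsSymm ∨ ω.IsAlt →
    ω.Nondegenerate → ∀ L : LieSubalgebra ℂ (Module.End ℂ (n → ℂ)), LieAlgebra.IsSimple ℂ L →
    (∀ W : Submodule ℂ (n → ℂ), (∀ x ∈ L, ∀ u ∈ W, x u ∈ W) → W = ⊥ ∨ W = ⊤) →
    (∀ x ∈ L, ∀ u v, ω (x u) v = -ω u (x v)) →
    (∀ x : Module.End ℂ (n → ℂ), (∀ u v, ω (x u) v = -ω u (x v)) → x ∈ L) ∨
      ∀ h ∈ L, h ≠ 0 → (⨆ c : ℂ, Module.End.eigenspace h c) = ⊤ → AT.Prog h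

theorem CoreP.coreW {EE : Set ℕ} (core : CoreP EE) {n : Type} [Fintype n] [DecidableEq n]
    (hn : Fintype.card n ∉ EE) {w : ℤ} {r : ℤ → ℕ} (h2 : 2 ≤ Fintype.card n) (hM : ¬ Arith (Fintype.card n) r)
    (h0 : ∀ q, 2 * q = w → r q ≠ Fintype.card n) : CoreW n w r := by
  intro Q' Qi hQ hQ1 hQ2 L hbr hirr hsk hs h E Λ hh hE hint hr X hX
  have hsa : (Matrix.toBilin' Q').IsSymm ∨ (Matrix.toBilin' Q').IsAlt := by
    rcases hQ with hQ | hQ
    · exact Or.inl (form_symm98 hQ)
    · right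
      intro u
      have h3 := form_alt98 hQ u u
      have h4 : (2 : ℂ) * Matrix.toBilin' Q' u u = 0 := by linear_combination h3
      exact (mul_eq_zero.1 h4).resolve_left two_ne_zero
  rcases core n hn (Matrix.toBilin' Q') hsa (form_nondeg98 hQ1) (lieOf L hbr) (lieOf_simple hirr h2 hs)
    (lieOf_irr hirr) (lieOf_sk hsk) with h3 | h3
  · have h4 : Matrix.toLin' X ∈ lieOf L hbr := by
      apply h3
      intro u v
      rw [Matrix.toLin'_apply, Matrix.toLin'_apply]
      exact skew_iff98.1 hX u v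
    rw [mem_lieOf, LinearMap.toMatrix'_toLin'] at h4
    exact h4
  · exfalso
    have hne : Matrix.toLin' h ≠ 0 := by
      intro h5
      have h7 := hE.finrank_eig98 0
      rw [h5] at h7
      have h8 : Module.End.eigenspace (0 : Module.End ℂ (n → ℂ)) ((0 : ℝ) : ℂ) = ⊤ := by
        rw [eq_top_iff]
        intro v _
        rw [Module.End.mem_eigenspace_iff]
        simp
      rw [h8, finrank_top, Module.finrank_fintype_fun_eq_card] at h7
      have h9 : E 0 ≠ 0 := by
        intro h10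
        rw [h10, Matrix.rank_zero] at h7
        omega
      obtain ⟨m, hm⟩ := hint 0 h9
      have h11 : 2 * m = w := by
        have : (2 * m - w : ℤ) = 0 := by exact_mod_cast hm.symm
        omega
      apply h0 m h11
      rw [← hr m, ← hm, h7]
    have h5 := h3 _ (toLin_mem_lieOf hh) hne hE.iSup_eig98
    apply hM
    have h6 := hE.arith14 (a := 2) (b := -(w : ℝ)) two_ne_zero (fun μ hμ => by
      obtain ⟨m, hm⟩ := hint μ hμ
      refine ⟨m, ?_⟩
      rw [hm]
      push_cast
      ring) h2 h5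
    have h7 : (fun p : ℤ => (E (2 * p + -(w : ℝ))).rank) = r := by
      funext p
      rw [← hr p]
      congr 2
      push_cast
      ring
    rwa [h7] at h6

/-- the exceptional set -/
structure ExP (EE : Set ℕ) : Prop where
  core : CoreP EE
  small : ∀ n, n < 9 → n ∈ EE
  pow : ∀ d k : ℕ, 2 ≤ k → d ^ k ∈ EE

variable {EE : Set ℕ}

theorem ExP.crW (hE : ExP EE) {w : ℤ} {r : ℕ} {h : ℤ → ℕ} (hr : r ∉ EE) (hI : NI.Indec w h) (h2 : ¬ Arith r h) :
    CrW w r h := by
  have h9 : 9 ≤ r := by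
    by_contra h3
    exact hr (hE.small r (by omega))
  refine ⟨hI, h9, fun h0 => ?_⟩
  exact hE.core.coreW (by rw [Fintype.card_fin]; exact hr) (by rw [Fintype.card_fin]; omega)
    (by rw [Fintype.card_fin]; exact h2) (fun p _ => by rw [Fintype.card_fin]; exact h0 p)

/-- only scalar endomorphisms -/
theorem IsHW.tyBN_p1 {n : Type} [Fintype n] [DecidableEq n] {w : ℤ} {Q : Matrix n n ℚ} {S : Finset ℤ}
    {P : ℤ → Matrix n n ℂ} (H : IsHW w Q S P) (hE : ExP EE)
    (hEnd : ∀ A : Matrix n n ℚ, (∀ p, toC A * P p = P p * toC A) → ∃ c : ℚ, A = c • (1 : Matrix n n ℚ))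
    {e : Matrix n n ℂ} (he : IsBlk P e) (hr2 : 2 ≤ e.rank) {σ : ℂ ≃+* ℂ} (hr : e.rank ∉ EE)
    (hI : NI.Indec w (fun p => (e.map σ * P p).rank)) (h2 : ¬ Arith e.rank (fun p => (e.map σ * P p).rank)) :
    TyBN Q S P e := by
  obtain rfl := blk_one14 hEnd he
  have e1 : (1 : Matrix n n ℂ).map σ = 1 := Matrix.map_one _ (map_zero _) (map_one _)
  rw [Matrix.rank_one] at hr2 hr h2
  simp only [e1, one_mul] at hI h2
  have h9 : 9 ≤ Fintype.card n := by
    by_contra h3
    exact hr (hE.small _ (by omega))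
  have h0 : ∀ p, (P p).rank ≠ Fintype.card n := by
    intro p hp
    exact rank_neE H hEnd hr2 p hp
  have hcore : CoreW n w (fun p => (P p).rank) := hE.core.coreW hr hr2 h2 fun p _ => h0 p
  have hnum : ∀ d k : ℕ, 2 ≤ d → 2 ≤ k → Fintype.card n = d ^ k → (∀ p, d ^ (k - 1) ∣ (P p).rank) → False :=
    fun d k _ hk hc _ => hr (by rw [hc]; exact hE.pow d k hk)
  exact H.tyBN_one hEnd (fun X hX => kills_coreW H hEnd hI hcore hnum hX) h9 he

end MH
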