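import Pool.Agent.Helper81.AT.FullAt
import Pool.Agent.Helper14.PX.Fin
import Pool.Agent.Helper81.AT.Main
import Pool.Agent.Helper3.AT.Prime2

/-!
Project AT (MP_b8862a_ag): the size of the exceptional sets.
-/

open Module

attribute [local instance 100] LieRing.ofAssociativeRing

namespace AT

/-- the bound, in terms of cardinalities -/
theorem TT.card14 {S : Set ℕ} (h : TT S) : ∃ C : ℝ, ∀ X : ℕ,
    (Nat.card {n : Fin X // (n : ℕ) ∈ S} : ℝ) ≤ C * (X : ℝ) ^ (2 / 3 : ℝ) := by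
  classical
  obtain ⟨C, hC⟩ := h
  refine ⟨C + 1, fun X => ?_⟩
  rcases Nat.eq_zero_or_pos X with rfl | hX
  · have h1 : Nat.card {n : Fin 0 // (n : ℕ) ∈ S} = 0 := by
      rw [Nat.card_eq_zero]
      left
      exact ⟨fun x => x.1.elim0⟩
    rw [h1, Nat.cast_zero, Real.zero_rpow (by positivity), mul_zero]
  have h2 : Nat.card {n : Fin X // (n : ℕ) ∈ S} ≤ PW.cn S X + 1 := by
    rw [Nat.card_eq_fintype_card, Fintype.card_subtype]
    have h3 : ((Finset.univ : Finset (Fin X)).filter fun n : Fin X => (n : ℕ) ∈ S).card ≤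
        (insert 0 ((Finset.Icc 1 X).filter (· ∈ S))).card := by
      refine Finset.card_le_card_of_injOn (fun n : Fin X => (n : ℕ)) ?_ (fun a _ b _ hab => Fin.ext hab)
      intro n hn
      have hn := (Finset.mem_filter.1 hn).2
      rw [Finset.mem_coe, Finset.mem_insert, Finset.mem_filter, Finset.mem_Icc]
      by_cases h4 : (n : ℕ) = 0
      · exact Or.inl h4
      · exact Or.inr ⟨⟨Nat.one_le_iff_ne_zero.2 h4, n.2.le⟩, hn⟩
    refine h3.trans ((Finset.card_insert_le _ _).trans (le_of_eq ?_))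
    unfold PW.cn
    congr
  have h3 : (1 : ℝ) ≤ (X : ℝ) ^ (2 / 3 : ℝ) := Real.one_le_rpow (by exact_mod_cast hX) (by positivity)
  calc (Nat.card {n : Fin X // (n : ℕ) ∈ S} : ℝ) ≤ PW.cn S X + 1 := by exact_mod_cast h2
    _ ≤ C * (X : ℝ) ^ (2 / 3 : ℝ) + 1 := by linarith [hC X]
    _ ≤ C * (X : ℝ) ^ (2 / 3 : ℝ) + (X : ℝ) ^ (2 / 3 : ℝ) := by linarith
    _ = (C + 1) * (X : ℝ) ^ (2 / 3 : ℝ) := by ring

end AT

namespace MH

/-- The exceptional ranks of the blocks that are not self-dual. -/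
def ExDim4 : Set ℕ := ExDim3 ∪ AT.Ex4

theorem exP_dim3 : ExP ExDim3 where
  core := by
    intro n _ hn ω hω hnd L hL hirr hsk
    haveI : LieAlgebra.IsSimple ℂ L := hL
    refine AT.core3p hω hnd hirr hsk ?_
    rw [Module.finrank_fintype_fun_eq_card]
    exact fun h => hn (Or.inl h)
  small := fun n hn => Or.inr (Or.inl hn)
  pow := fun d k hk => Or.inr (Or.inr ⟨d, k, hk, rfl⟩)

theorem exDim3_half : PX.Half ExDim3 := PX.ex3_half.union ((PX.half_bdd14 9).union PX.pow_half)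

theorem tt_dim4 : ∃ C : ℝ, ∀ X : ℕ, (Nat.card {n : Fin X // (n : ℕ) ∈ ExDim4} : ℝ) ≤ C * (X : ℝ) ^ (2 / 3 : ℝ) :=
  (exDim3_half.tt.union AT.ex4_tt).card14

theorem prime_dim34 {n q : ℕ} (hn : 0 < n) (hq : q.Prime) (hd : q ∣ n) (h50 : 50 * n ≤ q ^ 2) :
    n ∉ ExDim3 ∧ n ∉ ExDim4 := by
  have h3 : n ∉ ExDim3 := prime_dim3 hn hq hd (by omega)
  refine ⟨h3, ?_⟩
  rintro (h | h)
  · exact h3 h
  · exact AT.ex4_prime hq hd h50 h

end MH
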