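import Pool.Agent.Helper14.PW.MainE
import Pool.Agent.Helper98.AT.Dich

/-!
Project AT (MP_b8862a_ag): from the types of the blocks to the groups, with any endomorphism algebra.
-/

set_option linter.unusedSectionVars false

open Matrix Module GH

namespace MH

variable {n : Type*} [Fintype n] [DecidableEq n]
variable {w : ℤ} {Q : Matrix n n ℚ} {S : Finset ℤ} {P : ℤ → Matrix n n ℂ} {Γ : Subgroup (GL n ℂ)}

/-- The `ℓ`-adic data: `Γ` consists of similitudes of `Q` (isometries in weight zero); a subgroup of finite index preserves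
all the lines of matrices that are stable under the Mumford-Tate group; and for every automorphism `σ` there is a
Hodge-Tate decomposition with the numbers of the conjugate by `σ` of the Hodge decomposition. -/
structure IsGalZ (w : ℤ) (Q : Matrix n n ℚ) (S : Finset ℤ) (P : ℤ → Matrix n n ℂ) (Γ : Subgroup (GL n ℂ)) : Prop where
  sim : ∀ g ∈ Γ, ∃ z : ℂ, (w = 0 → z = 1) ∧ (g : Matrix n n ℂ)ᵀ * toC Q * (g : Matrix n n ℂ) = z ^ 2 • toC Q
  semi' : ∃ Γ' : Subgroup (GL n ℂ), Γ' ≤ Γ ∧ Γ'.relIndex Γ ≠ 0 ∧ ∀ g ∈ Γ', ∀ T : Matrix n n ℂ, SI S P T →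
    ∃ c : ℂ, (g : Matrix n n ℂ) * T = c • (T * (g : Matrix n n ℂ))
  conj : ∀ σ : ℂ ≃+* ℂ, ∃ (S' : Finset ℤ) (R : ℤ → Matrix n n ℂ), IsHTs w Q S P Γ σ S' R

theorem IsGalZ.toN (G : IsGalZ w Q S P Γ) : IsGalN w Q S P Γ where
  sim := fun g hg => by
    obtain ⟨z, _, h⟩ := G.sim g hg
    exact ⟨_, h⟩
  semi' := G.semi'
  conj := G.conj

/-- the main theorem, from the types of the blocks -/
theorem at_of_ty14 (H : IsHW w Q S P) (hty : ∀ f, IsBlk P f → 2 ≤ f.rank → TyBN Q S P f) :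
    (∀ g : GL n ℂ, InD Q S P (g : Matrix n n ℂ) → g ∈ MT S P) ∧
    (∀ g ∈ MT S P, ∀ h ∈ MT S P, InD Q S P ((g * h * g⁻¹ * h⁻¹ : GL n ℂ) : Matrix n n ℂ)) ∧
    (SelfDual Q P → ∀ g : GL n ℂ, g ∈ MT S P ↔ InGw w Q P (g : Matrix n n ℂ)) ∧
    ∀ Γ : Subgroup (GL n ℂ), IsGalZ w Q S P Γ →
      (∃ D : Subgroup (GL n ℚ), IsMonB Q S P D ∧ mapC D ≤ Γ) ∨
        (IsTateN S P Γ ∧ ∀ e, IsBlk P e → ∀ (r : ℕ) (W : Matrix n (Fin r) ℂ) (V : Matrix (Fin r) n ℂ),
          V * W = 1 → W * V = e → 2 ≤ r → TyN (cpS W V (LG Γ))) →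
      ∀ (a b : ℕ) (t : (Fin a ⊕ Fin b → n) → ℂ), (IsTateTensor Γ a b t → MTfix S P a b t) ∧
        (IsAbel w Q S P Γ ∨ SelfDual Q P → MTfix S P a b t → IsTateTensor Γ a b t) := by
  refine ⟨fun g hg => H.InD_MT43 hty hg, fun g hg h hh => H.comm_InD hg hh, fun hSD => H.MT_iff_self14 hty hSD,
    fun Γ G hAB a b t => ⟨fun ht => ?_, fun hA hm => ?_⟩⟩
  · rcases hAB with ⟨D, M, hle⟩ | ⟨hT, hfull⟩
    · exact tate_le_mon14 H hty G.toN M hle ht
    · exact G.toN.tate_le H ht fun g hg => (G.toN.toU H hT).tate_fix H hfull ht hg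
  · rcases hA with hA | hSD
    · exact G.toN.tate_ge H hA (fun g hg => H.InD_MT43 hty hg) hm
    · exact tate_ge14 H hSD (fun g hg => (H.MT_iff_self14 hty hSD g).2 hg) G.sim (G.toN.comm H) hm

end MH
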