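import Pool.Agent.Helper14.PW.MainE

/-!
Project AT (MP_b8862a_ag): from the types of the blocks to the groups, with any endomorphism algebra.
-/

set_option linter.unusedSectionVars false

open Matrix Module GH

namespace MH

variable {n : Type*} [Fintype n] [DecidableEq n]
variable {w : ℤ} {Q : Matrix n n ℚ} {S : Finset ℤ} {P : ℤ → Matrix n n ℂ} {Γ : Subgroup (GL n ℂ)}

/-- The `ℓ`-adic data: `Γ` consists of similitudes of `Q`; a subgroup of finite index preserves all the lines of matrices that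
are stable under the Mumford-Tate group; for every automorphism `σ` there is a Hodge-Tate decomposition with the numbers of
the conjugate by `σ` of the Hodge decomposition; and a tensor of weight zero for all these Hodge-Tate decompositions, which
is fixed by the commutators of a subgroup of finite index, is fixed by a subgroup of finite index (a property of Galois
groups: Serre, Abelian `ℓ`-adic representations). -/
structure IsGalA (w : ℤ) (Q : Matrix n n ℚ) (S : Finset ℤ) (P : ℤ → Matrix n n ℂ) (Γ : Subgroup (GL n ℂ)) : Prop where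
  sim : ∀ g ∈ Γ, ∃ c : ℂ, (g : Matrix n n ℂ)ᵀ * toC Q * (g : Matrix n n ℂ) = c • toC Q
  semi : ∃ Γ' : Subgroup (GL n ℂ), Γ' ≤ Γ ∧ Γ'.relIndex Γ ≠ 0 ∧ ∀ g ∈ Γ', ∀ T : Matrix n n ℂ, SI S P T →
    ∃ c : ℂ, (g : Matrix n n ℂ) * T = c • (T * (g : Matrix n n ℂ))
  conj : ∀ σ : ℂ ≃+* ℂ, ∃ (S' : Finset ℤ) (R : ℤ → Matrix n n ℂ), IsHTs w Q S P Γ σ S' R
  abel : ∀ a b t, (∀ σ S' R, IsHTs w Q S P Γ σ S' R → ∀ z : ℂ, z ≠ 0 →
      actF (slot a b (∑ p ∈ S', z ^ p • R p) (∑ p ∈ S', z⁻¹ ^ p • R p)) t = t) →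
    (∃ Γ' : Subgroup (GL n ℂ), Γ' ≤ Γ ∧ Γ'.relIndex Γ ≠ 0 ∧ ∀ g ∈ Γ', ∀ h ∈ Γ',
      actF (slot a b ((g * h * g⁻¹ * h⁻¹ : GL n ℂ) : Matrix n n ℂ)
        (((g * h * g⁻¹ * h⁻¹)⁻¹ : GL n ℂ) : Matrix n n ℂ)) t = t) → IsTateTensor Γ a b t

theorem IsGalA.toN (G : IsGalA w Q S P Γ) : IsGalN w Q S P Γ := ⟨G.sim, G.semi, G.conj⟩

/-- the main theorem, from the types of the blocks -/
theorem at_of_tyA (H : IsHW w Q S P) (hty : ∀ f, IsBlk P f → 2 ≤ f.rank → TyBN Q S P f) :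
    (∀ g : GL n ℂ, InD Q S P (g : Matrix n n ℂ) → g ∈ MT S P) ∧
    (∀ g ∈ MT S P, ∀ h ∈ MT S P, InD Q S P ((g * h * g⁻¹ * h⁻¹ : GL n ℂ) : Matrix n n ℂ)) ∧
    (SelfDual Q P → ∀ g : GL n ℂ, g ∈ MT S P ↔ InGw w Q P (g : Matrix n n ℂ)) ∧
    ∀ Γ : Subgroup (GL n ℂ), IsGalA w Q S P Γ →
      (∃ D : Subgroup (GL n ℚ), IsMonB Q S P D ∧ mapC D ≤ Γ) ∨
        (IsTateN S P Γ ∧ ∀ e, IsBlk P e → ∀ (r : ℕ) (W : Matrix n (Fin r) ℂ) (V : Matrix (Fin r) n ℂ),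
          V * W = 1 → W * V = e → 2 ≤ r → TyN (cpS W V (LG Γ))) →
      ∀ (a b : ℕ) (t : (Fin a ⊕ Fin b → n) → ℂ), IsTateTensor Γ a b t ↔ MTfix S P a b t := by
  refine ⟨fun g hg => H.InD_MT43 hty hg, fun g hg h hh => H.comm_InD hg hh, fun hSD => H.MT_iff_self14 hty hSD,
    fun Γ G hAB a b t => ⟨fun ht => ?_, fun hm => ?_⟩⟩
  · rcases hAB with ⟨D, M, hle⟩ | ⟨hT, hfull⟩
    · exact tate_le_mon14 H hty G.toN M hle ht
    · exact G.toN.tate_le H ht fun g hg => (G.toN.toU H hT).tate_fix H hfull ht hg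
  · exact G.toN.tate_ge H G.abel (fun g hg => H.InD_MT43 hty hg) hm

end MH
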