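import Pool.Agent.Helper14.AT.Main
import Pool.Agent.Helper14.AT.FrameA
import Pool.Agent.Helper14.AT.CoreP

/-!
Project AT (MP_b8862a_ag): the main theorem for Hodge structures with any endomorphism algebra, from the properties of the
exceptional sets.
-/

set_option linter.unusedSectionVars false

open Matrix Module GH

namespace MH

/-- For the ranks outside `E'`: a block with indecomposable Hodge-Tate numbers without common divisor, not in an arithmetic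
progression, is of full type. -/
def FullP (E' : Set ℕ) : Prop :=
  ∀ (n : Type) [Fintype n] [DecidableEq n] (w : ℤ) (Q : Matrix n n ℚ) (S : Finset ℤ) (P : ℤ → Matrix n n ℂ),
    IsHW w Q S P → ∀ Γ : Subgroup (GL n ℂ), IsGalU w Q S P Γ → ∀ e : Matrix n n ℂ, IsBlk P e →
    ∀ (r : ℕ) (W : Matrix n (Fin r) ℂ) (V : Matrix (Fin r) n ℂ), V * W = 1 → W * V = e → 2 ≤ r →
    ∀ (S' : Finset ℤ) (R : ℤ → Matrix n n ℂ), IsHTw w Q S' Γ R → (∀ d : ℕ, (∀ p, d ∣ (e * R p).rank) → d = 1) →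
    ¬ Arith r (fun p => (e * R p).rank) → IndecU (fun p => (e * R p).rank) → r ∉ E' → TyN (cpS W V (LG Γ))

section gen

variable {n : Type*} [Fintype n] [DecidableEq n]
variable {w : ℤ} {Q : Matrix n n ℚ} {S : Finset ℤ} {P : ℤ → Matrix n n ℂ} {Γ : Subgroup (GL n ℂ)}

/-- The condition on the block `e` and the automorphism `σ`: `e` is self-dual, its rank is not in `E` and the Hodge numbers
of the conjugate block are not those of a product of palindromic polynomials, or its rank is not in `E'` and they are not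
those of a product of polynomials; and they are not one on an arithmetic progression and zero elsewhere. -/
def CondP (E E' : Set ℕ) (w : ℤ) (Q : Matrix n n ℚ) (P : ℤ → Matrix n n ℂ) (e : Matrix n n ℂ) (σ : ℂ ≃+* ℂ) : Prop :=
  ((SelfB Q P e ∧ e.rank ∉ E ∧ NI.Indec w (fun p => (e.map σ * P p).rank)) ∨
    (e.rank ∉ E' ∧ IndecU (fun p => (e.map σ * P p).rank))) ∧ ¬ Arith e.rank (fun p => (e.map σ * P p).rank)

end gen

variable {n : Type} [Fintype n] [DecidableEq n]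
variable {w : ℤ} {Q : Matrix n n ℚ} {S : Finset ℤ} {P : ℤ → Matrix n n ℂ}

/-- a block with a conjugate that satisfies the condition, without common divisor: the general case -/
theorem IsHW.tyBN_UP (H : IsHW w Q S P) {E' : Set ℕ} (hU : FullP E') {e : Matrix n n ℂ} (he : IsBlk P e)
    (hr2 : 2 ≤ e.rank) {σ : ℂ ≃+* ℂ} (hg : ∀ d : ℕ, (∀ p, d ∣ (e.map σ * P p).rank) → d = 1)
    (h2 : ¬ Arith e.rank (fun p => (e.map σ * P p).rank)) (hI : IndecU (fun p => (e.map σ * P p).rank))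
    (hE : e.rank ∉ E') : TyBN Q S P e := by
  have hf := he.aut σ
  obtain ⟨r, W, V, hVW, hWV⟩ := exists_coord48 hf.idem
  have hrr : (e.map σ).rank = r := _root_.MH.blk_rank hf hVW hWV
  have hrk := rank_aut σ he.idem
  have hr : 2 ≤ r := by
    rw [← hrr, hrk]
    exact hr2
  have h1 := hU n w Q S P H _ H.isGalU_MT _ hf r W V hVW hWV hr S P H.isHTw_id hg (by rw [← hrr, hrk]; exact h2) hI
    (by rw [← hrr, hrk]; exact hE)
  rw [H.cpS_LG_MT hVW] at h1
  have h2 : TyBN Q S P (e.map σ) := ⟨r, W, V, hVW, hWV, h1⟩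
  have h3 := h2.aut σ.symm
  rwa [map_symmσ'] at h3

/-- **the blocks are of full type** -/
theorem IsHW.tyBN_atP (H : IsHW w Q S P) {E E' : Set ℕ} (hE : ExP E) (hEE : E ⊆ E') (hU : FullP E')
    {e : Matrix n n ℂ} (he : IsBlk P e) (hr2 : 2 ≤ e.rank) {σ : ℂ ≃+* ℂ} (hC : CondP E E' w Q P e σ)
    (hg : (∀ d : ℕ, (∀ p, d ∣ (e.map σ * P p).rank) → d = 1) ∨
        ∀ A : Matrix n n ℚ, (∀ p, toC A * P p = P p * toC A) → ∃ c : ℚ, A = c • (1 : Matrix n n ℚ)) : TyBN Q S P e := by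
  obtain ⟨hI, h2⟩ := hC
  rcases hg with hg | hEnd
  · rcases hI with ⟨hSB, hr, hI⟩ | ⟨hr, hI⟩
    · exact H.tyBN_crW' hSB he hr2 hg (hE.crW hr hI h2)
    · exact H.tyBN_UP hU he hr2 hg h2 hI hr
  · have hr : e.rank ∉ E := by
      rcases hI with ⟨-, hr, -⟩ | ⟨hr, -⟩
      · exact hr
      · exact fun h => hr (hEE h)
    have hI' : NI.Indec w (fun p => (e.map σ * P p).rank) := by
      rcases hI with ⟨-, -, hI⟩ | ⟨-, hI⟩
      · exact hI
      · exact hI.indec w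
    exact H.tyBN_p1 hE hEnd he hr2 hr hI' h2

/-- **The main theorem.** -/
theorem atP_main {E E' : Set ℕ} (hE : ExP E) (hEE : E ⊆ E') (hU : FullP E') (H : IsHW w Q S P)
    (hdom : ∀ e, IsBlk P e → 2 ≤ e.rank → ∃ σ : ℂ ≃+* ℂ, CondP E E' w Q P e σ ∧
      ((∀ d : ℕ, (∀ p, d ∣ (e.map σ * P p).rank) → d = 1) ∨
        ∀ A : Matrix n n ℚ, (∀ p, toC A * P p = P p * toC A) → ∃ c : ℚ, A = c • (1 : Matrix n n ℚ))) :
    (∀ g : GL n ℂ, InD Q S P (g : Matrix n n ℂ) → g ∈ MT S P) ∧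
    (∀ g ∈ MT S P, ∀ h ∈ MT S P, InD Q S P ((g * h * g⁻¹ * h⁻¹ : GL n ℂ) : Matrix n n ℂ)) ∧
    (SelfDual Q P → ∀ g : GL n ℂ, g ∈ MT S P ↔ InGw w Q P (g : Matrix n n ℂ)) ∧
    ∀ (ℓ : ℕ) [Fact ℓ.Prime] (ι : ℚ_[ℓ] →+* ℂ) (Γ : Subgroup (GL n ℚ_[ℓ])),
      IsGalA w Q S P (Γ.map (Matrix.GeneralLinearGroup.map ι)) →
      (∃ D : Subgroup (GL n ℚ), IsMonB Q S P D ∧ D.map (Matrix.GeneralLinearGroup.map (algebraMap ℚ ℚ_[ℓ])) ≤ Γ) ∨
      ((∀ e, IsBlk P e → 2 ≤ e.rank → ∃ σ : ℂ ≃+* ℂ, CondP E E' w Q P e σ ∧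
          ∀ d : ℕ, (∀ p, d ∣ (e.map σ * P p).rank) → d = 1) ∧
        IsTateN S P (Γ.map (Matrix.GeneralLinearGroup.map ι))) →
      ∀ (a b : ℕ) (t : (Fin a ⊕ Fin b → n) → ℂ),
        IsTateTensor (Γ.map (Matrix.GeneralLinearGroup.map ι)) a b t ↔ MTfix S P a b t := by
  have hty : ∀ f, IsBlk P f → 2 ≤ f.rank → TyBN Q S P f := by
    intro f hf hf2
    obtain ⟨σ, hC, hg⟩ := hdom f hf hf2
    exact H.tyBN_atP hE hEE hU hf hf2 hC hg
  obtain ⟨k1, k2, k3, k4⟩ := at_of_tyA H hty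
  refine ⟨k1, k2, k3, fun ℓ _ ι Γ G hAB => k4 _ G ?_⟩
  rcases hAB with ⟨D, hD, hle⟩ | ⟨hg, hT⟩
  · refine Or.inl ⟨D, hD, ?_⟩
    refine le_trans (le_of_eq ?_) (Subgroup.map_mono hle)
    rw [mapC, Subgroup.map_map]
    congr 1
    ext g i j
    simp [Matrix.GeneralLinearGroup.map_apply]
  · refine Or.inr ⟨hT, fun e he r W V hVW hWV hr => ?_⟩
    have hre : e.rank = r := _root_.MH.blk_rank he hVW hWV
    obtain ⟨σ, ⟨hI, h2⟩, hd⟩ := hg e he (by omega)
    obtain ⟨S', R, hR⟩ := G.conj σ.symm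
    have hnum : (fun p => (e * R p).rank) = fun p => (e.map σ * P p).rank := by
      funext p
      rw [hR.rank e he p, H.rank_symm43 he]
    have hnum' : ∀ p, (e * R p).rank = (e.map σ * P p).rank := fun p => congrFun hnum p
    have hd' : ∀ d : ℕ, (∀ p, d ∣ (e * R p).rank) → d = 1 := fun d hd' => hd d fun p => by
      rw [← hnum']
      exact hd' p
    rcases hI with ⟨hSB, hr', hI⟩ | ⟨hr', hI⟩
    · refine (G.toN.toU H hT).full_crW H he hVW hWV hr hR.toIsHTw hd' hSB ?_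
      rw [hnum, ← hre]
      exact hE.crW hr' hI h2
    · refine hU n w Q S P H _ (G.toN.toU H hT) e he r W V hVW hWV hr S' R hR.toIsHTw hd' ?_ ?_ ?_
      · rw [hnum, ← hre]
        exact h2
      · rw [hnum]
        exact hI
      · rw [← hre]
        exact hr'

end MH
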