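import Pool.Agent.Helper52.AT.Defs

/-!
# AT-SEQb: the resonant case of a first order recurrence (Stolz-Cesaro with binomials)
-/

set_option autoImplicit false

namespace Pool.Agent.Helper52.AT

open Filter Topology Asymptotics

theorem SEQb_hockey (j n : ℕ) :
    ∑ i ∈ Finset.range n, ((i.choose j : ℕ) : ℝ) = ((n.choose (j + 1) : ℕ) : ℝ) := by
  induction n with
  | zero => simp
  | succ n ih =>
    rw [Finset.sum_range_succ, ih, Nat.choose_succ_succ]
    push_cast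
    ring

theorem SEQb_hockeyC (j n : ℕ) :
    ∑ i ∈ Finset.range n, ((i.choose j : ℕ) : ℂ) = ((n.choose (j + 1) : ℕ) : ℂ) := by
  have h := congrArg (fun x : ℝ => (x : ℂ)) (SEQb_hockey j n)
  push_cast at h
  exact h

theorem SEQb_tendsto (j : ℕ) :
    Tendsto (fun n : ℕ => ∑ i ∈ Finset.range n, ((i.choose j : ℕ) : ℝ)) atTop atTop := by
  have h1 : ∀ n : ℕ, (n : ℝ) - j ≤ ∑ i ∈ Finset.range n, ((i.choose j : ℕ) : ℝ) := by
    intro n
    induction n with
    | zero => simp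
    | succ n ih =>
      rw [Finset.sum_range_succ]
      rcases le_or_gt j n with h | h
      · have h2 : (1 : ℝ) ≤ ((n.choose j : ℕ) : ℝ) := by
          exact_mod_cast Nat.choose_pos h
        push_cast
        linarith
      · have h2 : ((n + 1 : ℕ) : ℝ) ≤ j := by exact_mod_cast h
        have h3 : (0 : ℝ) ≤ ∑ i ∈ Finset.range n, ((i.choose j : ℕ) : ℝ) :=
          Finset.sum_nonneg fun _ _ => Nat.cast_nonneg _
        have h4 : (0 : ℝ) ≤ ((n.choose j : ℕ) : ℝ) := Nat.cast_nonneg _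
        linarith
  refine tendsto_atTop_mono h1 ?_
  have h5 : Tendsto (fun n : ℕ => (n : ℝ)) atTop atTop := tendsto_natCast_atTop_atTop
  simpa [sub_eq_add_neg] using tendsto_atTop_add_const_right atTop (-(j : ℝ)) h5

theorem reg_eq {μ c : ℂ} {j : ℕ} {s s' : ℕ → ℂ} (hs : ∀ n, s (n + 1) - μ * s n = s' n)
    (h : Reg μ j c s') : Reg μ (j + 1) (c / μ) s := by
  obtain ⟨hμ, hc, hlim⟩ := h
  refine ⟨hμ, div_ne_zero hc hμ, ?_⟩
  set r : ℕ → ℂ := fun n => s n / μ ^ n with hr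
  have hμn : ∀ n : ℕ, μ ^ n ≠ 0 := fun n => pow_ne_zero n hμ
  have hrs : ∀ n, r (n + 1) - r n = s' n / μ ^ (n + 1) := by
    intro n
    have h1 := hμn n
    have h2 := hμn (n + 1)
    simp only [hr]
    rw [← hs n, pow_succ]
    field_simp
  set g : ℕ → ℝ := fun i => ((i.choose j : ℕ) : ℝ) with hg
  set f : ℕ → ℂ := fun i => r (i + 1) - r i - ((i.choose j : ℕ) : ℂ) * (c / μ) with hf
  have hμpos : 0 < ‖μ‖ := norm_pos_iff.mpr hμ
  have hfg : f =o[atTop] g := by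
    rw [isLittleO_iff]
    intro ε hε
    have h1 : ∀ᶠ n in atTop, dist (s' n / ((n.choose j : ℂ) * μ ^ n)) c < ε * ‖μ‖ :=
      (Metric.tendsto_nhds.mp hlim) _ (mul_pos hε hμpos)
    filter_upwards [h1, eventually_ge_atTop j] with n hn hnj
    have hC : ((n.choose j : ℕ) : ℂ) ≠ 0 := by
      have := Nat.choose_pos hnj
      exact_mod_cast this.ne'
    have h2 : f n = ((n.choose j : ℕ) : ℂ) * (s' n / ((n.choose j : ℂ) * μ ^ n) - c) / μ := by
      simp only [hf]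
      rw [hrs n, pow_succ]
      have := hμn n
      field_simp
    rw [h2, norm_div, norm_mul, Complex.norm_natCast]
    rw [dist_eq_norm] at hn
    have h3 : ‖g n‖ = ((n.choose j : ℕ) : ℝ) := by
      simp only [hg]
      rw [Real.norm_eq_abs, abs_of_nonneg (Nat.cast_nonneg _)]
    rw [h3, div_le_iff₀ hμpos]
    have h4 : (0 : ℝ) ≤ ((n.choose j : ℕ) : ℝ) := Nat.cast_nonneg _
    calc ((n.choose j : ℕ) : ℝ) * ‖s' n / ((n.choose j : ℂ) * μ ^ n) - c‖
        ≤ ((n.choose j : ℕ) : ℝ) * (ε * ‖μ‖) := mul_le_mul_of_nonneg_left hn.le h4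
      _ = ε * ((n.choose j : ℕ) : ℝ) * ‖μ‖ := by ring
  have hsum := hfg.sum_range (fun i => Nat.cast_nonneg _) (SEQb_tendsto j)
  have hsumf : ∀ n, ∑ i ∈ Finset.range n, f i =
      r n - r 0 - ((n.choose (j + 1) : ℕ) : ℂ) * (c / μ) := by
    intro n
    simp only [hf]
    rw [Finset.sum_sub_distrib, Finset.sum_range_sub, ← Finset.sum_mul, SEQb_hockeyC]
  rw [isLittleO_iff] at hsum
  rw [Metric.tendsto_nhds]
  intro ε hε
  have h1 := hsum (c := ε / 3) (by positivity)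
  have h2 : ∀ᶠ n : ℕ in atTop, 3 * ‖r 0‖ / ε ≤ ∑ i ∈ Finset.range n, ((i.choose j : ℕ) : ℝ) :=
    (SEQb_tendsto j).eventually_ge_atTop _
  filter_upwards [h1, h2, eventually_ge_atTop (j + 1)] with n hn hn2 hnj
  rw [hsumf n] at hn
  have hgn : ∑ i ∈ Finset.range n, g i = ((n.choose (j + 1) : ℕ) : ℝ) := SEQb_hockey j n
  rw [hgn] at hn
  rw [SEQb_hockey] at hn2
  have hCpos : (0 : ℝ) < ((n.choose (j + 1) : ℕ) : ℝ) := by
    exact_mod_cast Nat.choose_pos hnj
  rw [Real.norm_eq_abs, abs_of_pos hCpos] at hn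
  have hC : ((n.choose (j + 1) : ℕ) : ℂ) ≠ 0 := by
    exact_mod_cast (Nat.choose_pos hnj).ne'
  have h3 : s n / ((n.choose (j + 1) : ℂ) * μ ^ n) - c / μ =
      (r n - ((n.choose (j + 1) : ℕ) : ℂ) * (c / μ)) / ((n.choose (j + 1) : ℕ) : ℂ) := by
    have := hμn n
    simp only [hr]
    field_simp
  rw [dist_eq_norm, h3, norm_div, Complex.norm_natCast, div_lt_iff₀ hCpos]
  have h4 : 3 * ‖r 0‖ ≤ ((n.choose (j + 1) : ℕ) : ℝ) * ε := by
    rwa [div_le_iff₀ hε] at hn2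
  have h5 : ‖r n - ((n.choose (j + 1) : ℕ) : ℂ) * (c / μ)‖ ≤
      ‖r n - r 0 - ((n.choose (j + 1) : ℕ) : ℂ) * (c / μ)‖ + ‖r 0‖ := by
    have : r n - ((n.choose (j + 1) : ℕ) : ℂ) * (c / μ) =
        (r n - r 0 - ((n.choose (j + 1) : ℕ) : ℂ) * (c / μ)) + r 0 := by ring
    rw [this]
    exact norm_add_le _ _
  have h6 : 0 < ε * ((n.choose (j + 1) : ℕ) : ℝ) := by positivity
  nlinarith [h4, h5, hn, h6]

end Pool.Agent.Helper52.AT
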