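import Pool.Agent.Helper81.AT.Defs
import Pool.Agent.Helper14.PF.SpCore2
import Pool.Agent.Helper81.TF.Core

/-!
Project AT (MP_b8862a_ag): a Lie algebra whose weights are those of the standard module of `sl_m` is `sl(V)`.
-/

open Module LieModule LieAlgebra LieAlgebra.IsKilling AddMonoidAlgebra MTP.MF PF PF.W PF.L PF.C

attribute [local instance 100] LieRing.ofAssociativeRing

namespace AT

section E

variable {E : Type*} [NormedAddCommGroup E] [InnerProductSpace ℝ E] {Φ X : Finset E}

theorem TypeS.facts (h : TypeS Φ X) : (∀ y ∈ X, ∀ z ∈ X, (inner ℝ y y : ℝ) = inner ℝ z z) ∧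
    (∀ y ∈ X, ∀ z ∈ X, y ≠ z → y - z ∈ Φ) ∧
    ∀ y ∈ X, ∀ z ∈ X, ∀ y' ∈ X, ∀ z' ∈ X, y ≠ z → y - z = y' - z' → y = y' ∧ z = z' := by
  obtain ⟨m, u, c, hm, hc, h1, h3, h4⟩ := h
  refine ⟨?_, ?_, ?_⟩
  · intro a ha b hb
    obtain ⟨i, rfl⟩ := (h4 a).1 ha
    obtain ⟨j, rfl⟩ := (h4 b).1 hb
    rw [h1, h1, if_pos rfl, if_pos rfl]
  · intro a ha b hb hab
    obtain ⟨i, rfl⟩ := (h4 a).1 ha
    obtain ⟨j, rfl⟩ := (h4 b).1 hb
    exact (h3 _).2 ⟨i, j, fun h => hab (by rw [h]), rfl⟩
  · intro a ha b hb a' ha' b' hb' hab he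
    obtain ⟨i, rfl⟩ := (h4 a).1 ha
    obtain ⟨j, rfl⟩ := (h4 b).1 hb
    obtain ⟨k, rfl⟩ := (h4 a').1 ha'
    obtain ⟨l, rfl⟩ := (h4 b').1 hb'
    have hij : i ≠ j := fun h => hab (by rw [h])
    have key : ∀ o : Fin m, ((if i = o then (1 : ℝ) else 0) - if j = o then (1 : ℝ) else 0) =
        (if k = o then (1 : ℝ) else 0) - if l = o then (1 : ℝ) else 0 := by
      intro o
      have e1 := congrArg (fun z : E => (inner ℝ z (u o) : ℝ)) he
      simp only [inner_sub_left, h1] at e1
      have e2 : c * (((if i = o then (1 : ℝ) else 0) - if j = o then (1 : ℝ) else 0) -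
          ((if k = o then (1 : ℝ) else 0) - if l = o then (1 : ℝ) else 0)) = 0 := by linear_combination e1
      rcases mul_eq_zero.1 e2 with e3 | e3
      · exact absurd e3 hc.ne'
      · exact sub_eq_zero.1 e3
    have hki : k = i := by
      have e1 := key i
      rw [if_pos rfl, if_neg (Ne.symm hij), sub_zero] at e1
      by_contra h5
      rw [if_neg h5] at e1
      split_ifs at e1 <;> norm_num at e1
    have hlj : l = j := by
      have e1 := key j
      rw [if_pos rfl, if_neg hij, zero_sub] at e1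
      by_contra h5
      rw [if_neg h5] at e1
      split_ifs at e1 <;> norm_num at e1
    rw [hki, hlj]
    exact ⟨rfl, rfl⟩

end E

section gen

variable {K : Type*} [Field K] [CharZero K] [IsAlgClosed K]
  {L : Type*} [LieRing L] [LieAlgebra K L] [FiniteDimensional K L] [IsKilling K L]
  {H : LieSubalgebra K L} [H.IsCartanSubalgebra]
  {V : Type*} [AddCommGroup V] [Module K V] [FiniteDimensional K V]
  [LieRingModule L V] [LieModule K L V] {I : Type*} [Fintype I]

/-- Type S in terms of the weights. -/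
theorem typeS_facts (B : WB (V := V) H I) (hS : TypeS (PhiS H) (XS B)) :
    (∀ i k, B.w i ≠ B.w k → ∃ β : H.root, rt β = B.w i - B.w k ∧ B.w i (coroot β.1) = 1) ∧
    ∀ i j k l, B.w i ≠ B.w j → B.w i - B.w j = B.w k - B.w l → B.w i = B.w k ∧ B.w j = B.w l := by
  obtain ⟨h1, h2, h3⟩ := hS.facts
  have hX : ∀ i, toE (B.w i) ∈ XS B := fun i => mem_XS.2 ⟨i, rfl⟩
  have hint : ∀ i, Intl (B.w i) := fun i => intl_w B i
  have hne : ∀ i k, B.w i ≠ B.w k → toE (B.w i) ≠ toE (B.w k) := fun i k h h' => h (toE_inj (hint i) (hint k) h')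
  refine ⟨fun i k h => ?_, fun i j k l h hij => ?_⟩
  · have g2 := h2 _ (hX i) _ (hX k) (hne i k h)
    obtain ⟨β, hβ⟩ := mem_PhiS.1 g2
    refine ⟨β, ?_, ?_⟩
    · apply toE_inj (intl_rt β) ((hint i).sub (hint k))
      rw [hβ, toE_sub (hint i) (hint k)]
    · rw [iv_spec (hint i) β]
      have h5 := co_toE (hint i) β
      rw [hβ] at h5
      have h6 : co (toE (B.w i) - toE (B.w k)) (toE (B.w i)) = 1 := by
        have h8 : (inner ℝ (toE (B.w i) - toE (B.w k)) (toE (B.w i) - toE (B.w k)) : ℝ) ≠ 0 := by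
          intro h9
          exact hne i k h (sub_eq_zero.1 (inner_self_eq_zero.1 h9))
        unfold co
        rw [div_eq_one_iff_eq h8]
        simp only [inner_sub_right, inner_sub_left]
        rw [h1 _ (hX i) _ (hX k), real_inner_comm (toE (B.w k)) (toE (B.w i))]
        ring
      rw [h6] at h5
      have h7 : iv (B.w i) β = 1 := by exact_mod_cast h5.symm
      rw [h7, Int.cast_one]
  · have e1 : toE (B.w i) - toE (B.w j) = toE (B.w k) - toE (B.w l) := by
      rw [← toE_sub (hint i) (hint j), ← toE_sub (hint k) (hint l), hij]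
    obtain ⟨e2, e3⟩ := h3 _ (hX i) _ (hX j) _ (hX k) _ (hX l) (hne i j h) e1
    exact ⟨toE_inj (hint i) (hint k) e2, toE_inj (hint j) (hint l) e3⟩

/-- All weights have multiplicity one. -/
theorem typeS_inj (B : WB (V := V) H I) [Nonempty I]
    (hirr : ∀ W : Submodule K V, (∀ x : L, ∀ u ∈ W, ⁅x, u⁆ ∈ W) → W = ⊥ ∨ W = ⊤)
    (hS : TypeS (PhiS H) (XS B)) : Function.Injective B.w := by
  obtain ⟨f1, -⟩ := typeS_facts B hS
  obtain ⟨b⟩ := RootPairing.nonempty_base (rootSystem H)
  obtain ⟨t, -, ht, -⟩ := PF.L.exists_top B hirr b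
  have step : ∀ i k, cnt B (B.w i) = 1 → cnt B (B.w k) = 1 := by
    intro i k h
    by_cases h1 : B.w i = B.w k
    · rw [← h1]
      exact h
    obtain ⟨β, hβ, hβ'⟩ := f1 i k h1
    rw [← h, ← cnt_refl B β (B.w i)]
    congr 1
    have h3 : (rootSystem H).reflection β (B.w i) = B.w i - (B.w i (coroot β.1)) • (rootSystem H).root β := by
      rw [RootPairing.reflection_apply]
      rfl
    have h4 : (rootSystem H).root β = B.w i - B.w k := hβ
    rw [h3, hβ', one_smul, h4, sub_sub_cancel]
  have ht1 : cnt B (B.w t) = 1 := (cnt_eq_one_iff B t).2 ht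
  intro i j hij
  exact (cnt_eq_one_iff B j).1 (step t j ht1) i hij

end gen

/-- A Lie algebra of endomorphisms that contains non-zero endomorphisms of the weights `w i - w j` contains all the
endomorphisms of trace zero. -/
theorem sl_of_pairs {K : Type*} [Field K] {V : Type*} [AddCommGroup V] [Module K V] {I : Type*} [Fintype I] [Nonempty I]
    {M : Type*} [AddCommGroup M] (v : Basis I K V) (w : I → M)
    (L : Submodule K (Module.End K V)) (hbr : ∀ x ∈ L, ∀ y ∈ L, x * y - y * x ∈ L) (hinj : Function.Injective w)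
    (h2 : ∀ i j, w i ≠ w j → ∃ e ∈ L, e ≠ 0 ∧ ∀ k l, v.repr (e (v k)) l ≠ 0 → w l = w k + (w i - w j))
    (h3 : ∀ i j k l, w i ≠ w j → w i - w j = w k - w l → w i = w k ∧ w j = w l)
    {y : Module.End K V} (hy : LinearMap.trace K V y = 0) : y ∈ L := by
  classical
  obtain ⟨E, hE⟩ : ∃ E : I → I → Module.End K V, ∀ i j k, E i j (v k) = if k = j then v i else 0 :=
    ⟨fun i j => v.constr K fun k => if k = j then v i else 0, fun i j k => v.constr_basis K _ k⟩
  have hne : ∀ i j, i ≠ j → E i j ∈ L := by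
    intro i j hij
    obtain ⟨e, he, he0, hk⟩ := h2 i j (fun h => hij (hinj h))
    have h4 : ∀ k l, v.repr (e (v k)) l ≠ 0 → l = i ∧ k = j := by
      intro k l hkl
      have h5 : w i - w j = w l - w k := by
        rw [hk k l hkl]
        abel
      obtain ⟨e1, e2⟩ := h3 i j l k (fun h => hij (hinj h)) h5
      exact ⟨(hinj e1).symm, (hinj e2).symm⟩
    have h5 : e = v.repr (e (v j)) i • E i j := by
      apply v.ext
      intro k
      rw [LinearMap.smul_apply, hE]
      apply v.repr.injective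
      ext l
      rw [map_smul, Finsupp.smul_apply]
      by_cases h6 : k = j
      · subst h6
        rw [if_pos rfl, Basis.repr_self, Finsupp.single_apply]
        by_cases h7 : i = l
        · subst h7
          rw [if_pos rfl, smul_eq_mul, mul_one]
        · rw [if_neg h7, smul_zero]
          by_contra h8
          exact h7 (h4 k l h8).1.symm
      · rw [if_neg h6, map_zero, Finsupp.zero_apply, smul_zero]
        by_contra h8
        exact h6 (h4 k l h8).2
    have h6 : v.repr (e (v j)) i ≠ 0 := by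
      intro h7
      rw [h7, zero_smul] at h5
      exact he0 h5
    have h7 : (v.repr (e (v j)) i)⁻¹ • (v.repr (e (v j)) i • E i j) ∈ L := by
      rw [← h5]
      exact L.smul_mem _ he
    rwa [smul_smul, inv_mul_cancel₀ h6, one_smul] at h7
  have hdd : ∀ i j, E i i - E j j ∈ L := by
    intro i j
    by_cases hij : i = j
    · rw [hij, sub_self]
      exact L.zero_mem
    · have h4 : E i i - E j j = E i j * E j i - E j i * E i j := by
        apply v.ext
        intro k
        simp only [LinearMap.sub_apply, Module.End.mul_apply, hE]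
        congr 1
        · by_cases h5 : k = i
          · rw [if_pos h5, if_pos h5, hE, if_pos rfl]
          · rw [if_neg h5, if_neg h5, map_zero]
        · by_cases h5 : k = j
          · rw [if_pos h5, if_pos h5, hE, if_pos rfl]
          · rw [if_neg h5, if_neg h5, map_zero]
      rw [h4]
      exact hbr _ (hne i j hij) _ (hne j i (Ne.symm hij))
  obtain ⟨o⟩ := ‹Nonempty I›
  have htr : ∑ i, v.repr (y (v i)) i = 0 := by
    rw [LinearMap.trace_eq_matrix_trace K v] at hy
    rw [← hy]
    simp only [Matrix.trace, Matrix.diag_apply, LinearMap.toMatrix_apply]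
  have hsum : y = (∑ j, ∑ i, if i = j then v.repr (y (v j)) i • (E i i - E o o) else v.repr (y (v j)) i • E i j) := by
    have h5 : (∑ j, ∑ i, if i = j then v.repr (y (v j)) i • (E i i - E o o) else v.repr (y (v j)) i • E i j) =
        (∑ j, ∑ i, v.repr (y (v j)) i • E i j) - ∑ j, ∑ i, (if i = j then v.repr (y (v j)) i • E o o else 0) := by
      rw [← Finset.sum_sub_distrib]
      refine Finset.sum_congr rfl fun j _ => ?_
      rw [← Finset.sum_sub_distrib]
      refine Finset.sum_congr rfl fun i _ => ?_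
      by_cases h6 : i = j
      · subst h6
        rw [if_pos rfl, if_pos rfl, smul_sub]
      · rw [if_neg h6, if_neg h6, sub_zero]
    have h6 : ∑ j, ∑ i, (if i = j then v.repr (y (v j)) i • E o o else 0) = 0 := by
      have h7 : ∀ j, ∑ i, (if i = j then v.repr (y (v j)) i • E o o else 0) = v.repr (y (v j)) j • E o o := by
        intro j
        rw [Finset.sum_ite_eq' Finset.univ j, if_pos (Finset.mem_univ j)]
      simp only [h7]
      rw [← Finset.sum_smul, htr, zero_smul]
    rw [h5, h6, sub_zero]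
    apply v.ext
    intro k
    simp only [LinearMap.sum_apply, LinearMap.smul_apply, hE]
    rw [Finset.sum_eq_single k]
    · simp only [if_true]
      exact (v.sum_repr (y (v k))).symm
    · intro j _ hj
      refine Finset.sum_eq_zero fun i _ => ?_
      rw [if_neg (Ne.symm hj), smul_zero]
    · intro h
      exact absurd (Finset.mem_univ k) h
  rw [hsum]
  refine L.sum_mem fun j _ => L.sum_mem fun i _ => ?_
  split_ifs with h
  · exact L.smul_mem _ (hdd i o)
  · exact L.smul_mem _ (hne i j h)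

section lie

variable {K : Type*} [Field K] [CharZero K] [IsAlgClosed K]
  {L : Type*} [LieRing L] [LieAlgebra K L] [FiniteDimensional K L] [IsKilling K L]
  {H : LieSubalgebra K L} [H.IsCartanSubalgebra]
  {V : Type*} [AddCommGroup V] [Module K V] [FiniteDimensional K V]
  [LieRingModule L V] [LieModule K L V] {I : Type*} [Fintype I]

/-- **The standard module**: `L` contains everything of trace zero. -/
theorem typeS_sl (B : WB (V := V) H I) [Nonempty I] [Nonempty H.root] [(rootSystem H).IsIrreducible]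
    (hirr : ∀ W : Submodule K V, (∀ x : L, ∀ u ∈ W, ⁅x, u⁆ ∈ W) → W = ⊥ ∨ W = ⊤)
    (hfaith : ∀ x : L, (∀ u : V, ⁅x, u⁆ = 0) → x = 0)
    (hS : TypeS (PF.CC.Ph (rootSystem H)) (PF.CC.Xw B)) (x : Module.End K V) (hx : LinearMap.trace K V x = 0) :
    ∃ y : L, ∀ u : V, ⁅y, u⁆ = x u := by
  rw [← PF.C.PhiS_eq, ← TF.XS_eq] at hS
  have hinj := typeS_inj B hirr hS
  obtain ⟨f1, f2⟩ := typeS_facts B hS
  have h := sl_of_pairs B.v B.w (LinearMap.range (LieModule.toEnd K L V : L →ₗ[K] Module.End K V)) ?_ hinj ?_ f2 hx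
  · obtain ⟨y, hy⟩ := h
    exact ⟨y, fun u => by rw [← hy]; rfl⟩
  · rintro _ ⟨a, rfl⟩ _ ⟨b, rfl⟩
    refine ⟨⁅a, b⁆, ?_⟩
    ext u
    change ⁅⁅a, b⁆, u⁆ = ⁅a, ⁅b, u⁆⁆ - ⁅b, ⁅a, u⁆⁆
    rw [lie_lie]
  · intro i j hij
    obtain ⟨β, hβ, -⟩ := f1 i j hij
    obtain ⟨e, he, he0⟩ := β.1.exists_ne_zero
    refine ⟨_, ⟨e, rfl⟩, ?_, ?_⟩
    · intro h
      apply he0
      apply hfaith
      intro u
      have := LinearMap.congr_fun h u
      exact this
    · intro k l hkl
      ext h
      have h2 := B.coord_root (α := β) he hkl h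
      have h3 : rt β h = B.w i h - B.w j h := by rw [hβ]; rfl
      have h4 : β.1 h = rt β h := rfl
      rw [h2, h4, h3, LinearMap.add_apply, LinearMap.sub_apply]
      ring

end lie

end AT
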